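import Mathlib

set_option autoImplicit false

/-!
Perfect secret sharing: a quadratic lower bound for the total share length
(so a linear lower bound for the longest share), for an explicit access structure.

Parties: `X = {x_0, ..., x_(l-1)}`, `A = {a_0, ..., a_(l-1)}`, `B = {b_0, ..., b_l}`.
A set is authorized if it contains `X` minus one party `x_i`, some `a_j`, and at
least `1 + ((i + j) mod l)` parties of `B`.

The proof: normalised Shannon entropy gives a monotone submodular function which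
gains one unit at each crossing of two authorized sets with an unauthorized
intersection (Csirmaz); then one averages over the orderings of `B` and telescopes.
-/

namespace Pool.Agent.Results.MP_d08deb_lc.QuadraticTotalShare

open Finset

/-! ### Part 1: the combinatorial inequality -/

section Comb

variable {l : ℕ}

/-- first `k` elements of `B` in the ordering `σ` -/
def J (k : ℕ) (σ : Equiv.Perm (Fin (l + 1))) : Finset (Fin (l + 1)) :=
  univ.filter (fun t => (σ t : ℕ) < k)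

lemma mem_J {k : ℕ} {σ : Equiv.Perm (Fin (l + 1))} {t : Fin (l + 1)} :
    t ∈ J k σ ↔ (σ t : ℕ) < k := by
  simp [J]

/-- authorized triples -/
def Auth [NeZero l] (Z : Finset (Fin l) × Finset (Fin l) × Finset (Fin (l + 1))) : Prop :=
  ∃ i j : Fin l, (∀ k, k ≠ i → k ∈ Z.1) ∧ j ∈ Z.2.1 ∧ (i + j).val + 1 ≤ Z.2.2.card

lemma card_J (k : ℕ) (hk : k ≤ l + 1) (σ : Equiv.Perm (Fin (l + 1))) :
    (J k σ).card = k := by
  have h1 : (J k σ).card = (univ.filter (fun t : Fin (l + 1) => (t : ℕ) < k)).card := by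
    unfold J
    refine card_bij (fun t _ => σ t) ?_ ?_ ?_
    · intro t ht
      simpa using ht
    · intro t _ t' _ h
      exact σ.injective h
    · intro t ht
      exact ⟨σ.symm t, by simpa using ht, Equiv.apply_symm_apply σ t⟩
  rw [h1, Fin.card_filter_val_lt]
  exact min_eq_right hk

lemma J_mono {k k' : ℕ} (h : k ≤ k') (σ : Equiv.Perm (Fin (l + 1))) : J k σ ⊆ J k' σ := by
  intro t ht
  simp only [J, mem_filter, mem_univ, true_and] at ht ⊢
  omega

lemma J_zero (σ : Equiv.Perm (Fin (l + 1))) : J 0 σ = ∅ := by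
  simp [J]

lemma J_one (σ : Equiv.Perm (Fin (l + 1))) : J 1 σ = {σ.symm 0} := by
  ext t
  simp only [J, mem_filter, mem_univ, true_and, mem_singleton, Nat.lt_one_iff]
  rw [Equiv.eq_symm_apply]
  constructor
  · intro h
    exact Fin.ext (by simpa using h)
  · intro h
    rw [h]
    simp

variable [NeZero l] {g : Finset (Fin l) × Finset (Fin l) × Finset (Fin (l + 1)) → ℝ}

lemma step_swap
    (hsub : ∀ Y Z, Auth Y → Auth Z → ¬ Auth (Y ⊓ Z) → g (Y ⊔ Z) + g (Y ⊓ Z) + 1 ≤ g Y + g Z)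
    (i j : Fin l) :
    (Fintype.card (Equiv.Perm (Fin (l + 1))) : ℝ) ≤
      ∑ σ : Equiv.Perm (Fin (l + 1)),
        ((g (univ.erase i, {j}, J ((i + j).val + 1) σ) - g (univ.erase i, {j}, J (i + j).val σ)) -
         (g (univ.erase i, {j}, J ((i + j).val + 2) σ) -
            g (univ.erase i, {j}, J ((i + j).val + 1) σ))) := by
  set c : ℕ := (i + j).val with hc
  have hcl : c < l := (i + j).isLt
  let p : Fin (l + 1) := ⟨c, by omega⟩
  let p' : Fin (l + 1) := ⟨c + 1, by omega⟩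
  have hpp : p ≠ p' := by
    intro h
    have := congrArg Fin.val h
    simp [p, p'] at this
  let τ : Equiv.Perm (Fin (l + 1)) := Equiv.swap p p'
  have hτp : τ p = p' := Equiv.swap_apply_left p p'
  have hτp' : τ p' = p := Equiv.swap_apply_right p p'
  have hτ : ∀ s, s ≠ p → s ≠ p' → τ s = s := fun s h h' => Equiv.swap_apply_of_ne_of_ne h h'
  have hre : ∑ σ : Equiv.Perm (Fin (l + 1)), g (univ.erase i, {j}, J (c + 1) (τ * σ)) =
      ∑ σ : Equiv.Perm (Fin (l + 1)), g (univ.erase i, {j}, J (c + 1) σ) :=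
    Equiv.sum_comp (Equiv.mulLeft τ) (fun σ => g (univ.erase i, {j}, J (c + 1) σ))
  have hcup : ∀ σ : Equiv.Perm (Fin (l + 1)), J (c + 1) σ ∪ J (c + 1) (τ * σ) = J (c + 2) σ := by
    intro σ
    ext t
    rw [mem_union, mem_J, mem_J, mem_J, Equiv.Perm.mul_apply]
    by_cases h1 : σ t = p
    · rw [h1, hτp]; simp [p, p']
    · by_cases h2 : σ t = p'
      · rw [h2, hτp']; simp [p, p']
      · rw [hτ _ h1 h2]
        have h1' : (σ t : ℕ) ≠ c := fun h => h1 (Fin.ext h)
        have h2' : (σ t : ℕ) ≠ c + 1 := fun h => h2 (Fin.ext h)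
        omega
  have hcap : ∀ σ : Equiv.Perm (Fin (l + 1)), J (c + 1) σ ∩ J (c + 1) (τ * σ) = J c σ := by
    intro σ
    ext t
    rw [mem_inter, mem_J, mem_J, mem_J, Equiv.Perm.mul_apply]
    by_cases h1 : σ t = p
    · rw [h1, hτp]; simp [p, p']
    · by_cases h2 : σ t = p'
      · rw [h2, hτp']; simp [p, p']
      · rw [hτ _ h1 h2]
        have h1' : (σ t : ℕ) ≠ c := fun h => h1 (Fin.ext h)
        have h2' : (σ t : ℕ) ≠ c + 1 := fun h => h2 (Fin.ext h)
        omega
  have hA : ∀ σ : Equiv.Perm (Fin (l + 1)), Auth (univ.erase i, {j}, J (c + 1) σ) := by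
    intro σ
    refine ⟨i, j, ?_, by simp, ?_⟩
    · intro k hk
      simp [hk]
    · rw [card_J _ (by omega)]
  have hN : ∀ σ : Equiv.Perm (Fin (l + 1)), ¬ Auth (univ.erase i, {j}, J c σ) := by
    rintro σ ⟨i', j', h1, h2, h3⟩
    have hi : i' = i := by
      by_contra hne
      have := h1 i (fun h => hne h.symm)
      simp at this
    have hj : j' = j := by simpa using h2
    subst hi hj
    rw [card_J _ (by omega)] at h3
    omega
  have hkey : ∀ σ : Equiv.Perm (Fin (l + 1)),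
      g (univ.erase i, {j}, J (c + 2) σ) + g (univ.erase i, {j}, J c σ) + 1 ≤
        g (univ.erase i, {j}, J (c + 1) σ) + g (univ.erase i, {j}, J (c + 1) (τ * σ)) := by
    intro σ
    have hs : ((univ.erase i, {j}, J (c + 1) σ) ⊔ (univ.erase i, {j}, J (c + 1) (τ * σ)) :
        Finset (Fin l) × Finset (Fin l) × Finset (Fin (l + 1))) =
        (univ.erase i, {j}, J (c + 2) σ) := by
      simp only [Prod.mk_sup_mk, sup_eq_union, union_idempotent, hcup]
    have hi : ((univ.erase i, {j}, J (c + 1) σ) ⊓ (univ.erase i, {j}, J (c + 1) (τ * σ)) :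
        Finset (Fin l) × Finset (Fin l) × Finset (Fin (l + 1))) =
        (univ.erase i, {j}, J c σ) := by
      simp only [Prod.mk_inf_mk, inf_eq_inter, inter_self, hcap]
    have := hsub _ _ (hA σ) (hA (τ * σ)) (by rw [hi]; exact hN σ)
    rw [hs, hi] at this
    exact this
  have hsum := Finset.sum_le_sum (fun σ (_ : σ ∈ (univ : Finset (Equiv.Perm (Fin (l + 1))))) => hkey σ)
  simp only [Finset.sum_add_distrib, hre] at hsum
  simp only [Finset.sum_sub_distrib]
  have hcard : ∑ σ : Equiv.Perm (Fin (l + 1)), (1 : ℝ) =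
      (Fintype.card (Equiv.Perm (Fin (l + 1))) : ℝ) := by
    simp
  rw [hcard] at hsum
  linarith

lemma sum_row (i : Fin l) (h : ℕ → ℝ) :
    ∑ j : Fin l, h (i + j).val = ∑ c ∈ range l, h c := by
  exact (Equiv.sum_comp (Equiv.addLeft i) (fun c : Fin l => h c.val)).trans
    (Fin.sum_univ_eq_sum_range h l)

lemma sum_col (j : Fin l) (h : ℕ → ℝ) :
    ∑ i : Fin l, h (i + j).val = ∑ c ∈ range l, h c := by
  exact (Equiv.sum_comp (Equiv.addRight j) (fun c : Fin l => h c.val)).trans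
    (Fin.sum_univ_eq_sum_range h l)

omit [NeZero l] in
lemma phi_anti (hsub : ∀ Y Z, g (Y ⊔ Z) + g (Y ⊓ Z) ≤ g Y + g Z)
    {U U' V V' : Finset (Fin l)} {W W' : Finset (Fin (l + 1))}
    (hU : U ⊆ U') (hV : V ⊆ V') (hW : W ⊆ W') :
    g (U', V', W') + g (U, V, W) ≤ g (U', V', W) + g (U, V, W') := by
  have h := hsub (U', V', W) (U, V, W')
  simp only [Prod.mk_sup_mk, Prod.mk_inf_mk, sup_eq_union, inf_eq_inter] at h
  rw [union_eq_left.2 hU, union_eq_left.2 hV, union_eq_right.2 hW, inter_eq_right.2 hU,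
    inter_eq_right.2 hV, inter_eq_left.2 hW] at h
  exact h

lemma per_sigma (h0 : g (∅, ∅, ∅) = 0) (hmono : ∀ Y Z, Y ≤ Z → g Y ≤ g Z)
    (hsub : ∀ Y Z, g (Y ⊔ Z) + g (Y ⊓ Z) ≤ g Y + g Z) (σ : Equiv.Perm (Fin (l + 1))) :
    ∑ i : Fin l, ∑ j : Fin l,
        ((g (univ.erase i, {j}, J ((i + j).val + 1) σ) - g (univ.erase i, {j}, J (i + j).val σ)) -
         (g (univ.erase i, {j}, J ((i + j).val + 2) σ) -
            g (univ.erase i, {j}, J ((i + j).val + 1) σ))) ≤
      ∑ i : Fin l, g ({i}, ∅, ∅) + ∑ j : Fin l, g (∅, {j}, ∅) + l * g (∅, ∅, {σ.symm 0}) := by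
  set D : Fin l → ℕ → ℝ := fun i c => g (univ.erase i, ∅, J c σ) - g (univ, ∅, J c σ) with hD
  set E : ℕ → ℝ := fun c => g (univ, ∅, J (c + 1) σ) - g (univ, ∅, J c σ) with hE
  set D' : Fin l → ℕ → ℝ := fun j c => g (univ, ∅, J c σ) - g (univ, {j}, J c σ) with hD'
  have hterm : ∀ i j : Fin l,
      ((g (univ.erase i, {j}, J ((i + j).val + 1) σ) - g (univ.erase i, {j}, J (i + j).val σ)) -
         (g (univ.erase i, {j}, J ((i + j).val + 2) σ) -
            g (univ.erase i, {j}, J ((i + j).val + 1) σ))) ≤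
      (D i ((i + j).val + 1) - D i (i + j).val) + (E (i + j).val - E ((i + j).val + 1)) +
        (D' j ((i + j).val + 2) - D' j ((i + j).val + 1)) := by
    intro i j
    have h1 := phi_anti hsub (subset_refl (univ.erase i)) (empty_subset {j})
      (J_mono (Nat.le_succ (i + j).val) σ)
    have h2 := phi_anti hsub (erase_subset i univ) (subset_refl {j})
      (J_mono (Nat.le_succ ((i + j).val + 1)) σ)
    simp only [hD, hE, hD']
    simp only [Nat.succ_eq_add_one] at h1 h2
    have e2 : (i + j).val + 1 + 1 = (i + j).val + 2 := rfl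
    rw [e2] at h2 ⊢
    linarith
  have hA : ∑ i : Fin l, ∑ j : Fin l, (D i ((i + j).val + 1) - D i (i + j).val) ≤
      ∑ i : Fin l, g ({i}, ∅, ∅) := by
    refine sum_le_sum (fun i _ => ?_)
    rw [sum_row i (fun c => D i (c + 1) - D i c), sum_range_sub]
    have e1 : D i l ≤ 0 := by
      simp only [hD]
      have := hmono (univ.erase i, ∅, J l σ) (univ, ∅, J l σ)
        ⟨erase_subset i univ, le_refl _, le_refl _⟩
      linarith
    have e2 := hsub (univ.erase i, ∅, ∅) ({i}, ∅, ∅)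
    simp only [Prod.mk_sup_mk, Prod.mk_inf_mk, sup_eq_union, inf_eq_inter, union_idempotent,
      inter_self] at e2
    have e3 : (univ.erase i ∪ {i} : Finset (Fin l)) = univ := by
      ext k; simp
    have e4 : (univ.erase i ∩ {i} : Finset (Fin l)) = ∅ := by
      ext k; simp
    rw [e3, e4, h0] at e2
    have e5 : D i 0 = g (univ.erase i, ∅, ∅) - g (univ, ∅, ∅) := by
      simp only [hD, J_zero]
    rw [e5]
    linarith
  have hB : ∑ i : Fin l, ∑ j : Fin l, (E (i + j).val - E ((i + j).val + 1)) ≤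
      l * g (∅, ∅, {σ.symm 0}) := by
    have e0 : ∀ i : Fin l, ∑ j : Fin l, (E (i + j).val - E ((i + j).val + 1)) ≤
        g (∅, ∅, {σ.symm 0}) := by
      intro i
      rw [sum_row i (fun c => E c - E (c + 1)), sum_range_sub']
      have e1 : 0 ≤ E l := by
        simp only [hE]
        have := hmono (univ, ∅, J l σ) (univ, ∅, J (l + 1) σ)
          ⟨le_refl _, le_refl _, J_mono (Nat.le_succ l) σ⟩
        linarith
      have e2 := hsub (univ, ∅, ∅) (∅, ∅, J 1 σ)
      simp only [Prod.mk_sup_mk, Prod.mk_inf_mk, sup_eq_union, inf_eq_inter, union_idempotent,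
        inter_self, union_empty, empty_union, inter_empty, empty_inter, h0] at e2
      have e3 : E 0 = g (univ, ∅, J 1 σ) - g (univ, ∅, ∅) := by
        simp only [hE, J_zero, zero_add]
      rw [← J_one, e3]
      linarith
    calc ∑ i : Fin l, ∑ j : Fin l, (E (i + j).val - E ((i + j).val + 1))
        ≤ ∑ i : Fin l, g (∅, ∅, {σ.symm 0}) := sum_le_sum (fun i _ => e0 i)
      _ = l * g (∅, ∅, {σ.symm 0}) := by simp
  have hC : ∑ i : Fin l, ∑ j : Fin l, (D' j ((i + j).val + 2) - D' j ((i + j).val + 1)) ≤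
      ∑ j : Fin l, g (∅, {j}, ∅) := by
    rw [sum_comm]
    refine sum_le_sum (fun j _ => ?_)
    rw [sum_col j (fun c => D' j (c + 2) - D' j (c + 1))]
    rw [sum_range_sub (fun c => D' j (c + 1)) l]
    have e1 : D' j (l + 1) ≤ 0 := by
      simp only [hD']
      have := hmono (univ, ∅, J (l + 1) σ) (univ, {j}, J (l + 1) σ)
        ⟨le_refl _, empty_subset _, le_refl _⟩
      linarith
    have e2 := hsub (univ, ∅, J 1 σ) (∅, {j}, ∅)
    simp only [Prod.mk_sup_mk, Prod.mk_inf_mk, sup_eq_union, inf_eq_inter, 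
      union_empty, empty_union, inter_empty, empty_inter, h0] at e2
    have e3 : D' j (0 + 1) = g (univ, ∅, J 1 σ) - g (univ, {j}, J 1 σ) := by
      simp only [hD', zero_add]
    rw [e3]
    linarith
  calc _ ≤ ∑ i : Fin l, ∑ j : Fin l,
      ((D i ((i + j).val + 1) - D i (i + j).val) + (E (i + j).val - E ((i + j).val + 1)) +
        (D' j ((i + j).val + 2) - D' j ((i + j).val + 1))) :=
        sum_le_sum (fun i _ => sum_le_sum (fun j _ => hterm i j))
    _ = ∑ i : Fin l, ∑ j : Fin l, (D i ((i + j).val + 1) - D i (i + j).val) +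
        ∑ i : Fin l, ∑ j : Fin l, (E (i + j).val - E ((i + j).val + 1)) +
        ∑ i : Fin l, ∑ j : Fin l, (D' j ((i + j).val + 2) - D' j ((i + j).val + 1)) := by
        simp only [sum_add_distrib]
    _ ≤ _ := by linarith

omit [NeZero l] in
lemma avg_first (F : Fin (l + 1) → ℝ) :
    ((l : ℝ) + 1) * ∑ σ : Equiv.Perm (Fin (l + 1)), F (σ.symm 0) =
      (Fintype.card (Equiv.Perm (Fin (l + 1))) : ℝ) * ∑ t, F t := by
  have h1 : ∀ k : Fin (l + 1), ∑ σ : Equiv.Perm (Fin (l + 1)), F (σ.symm k) =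
      ∑ σ : Equiv.Perm (Fin (l + 1)), F (σ.symm 0) := by
    intro k
    rw [← Equiv.sum_comp (Equiv.mulLeft (Equiv.swap 0 k))
      (fun σ : Equiv.Perm (Fin (l + 1)) => F (σ.symm k))]
    refine sum_congr rfl (fun σ _ => ?_)
    have : (Equiv.mulLeft (Equiv.swap 0 k) σ).symm k = σ.symm 0 := by
      rw [Equiv.symm_apply_eq]
      simp [Equiv.swap_apply_left]
    rw [this]
  have h2 : ∑ k : Fin (l + 1), ∑ σ : Equiv.Perm (Fin (l + 1)), F (σ.symm k) =
      ((l : ℝ) + 1) * ∑ σ : Equiv.Perm (Fin (l + 1)), F (σ.symm 0) := by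
    rw [sum_congr rfl (fun k _ => h1 k)]
    simp
  have h3 : ∑ k : Fin (l + 1), ∑ σ : Equiv.Perm (Fin (l + 1)), F (σ.symm k) =
      (Fintype.card (Equiv.Perm (Fin (l + 1))) : ℝ) * ∑ t, F t := by
    rw [sum_comm, sum_congr rfl (fun (σ : Equiv.Perm (Fin (l + 1))) _ => Equiv.sum_comp σ.symm F)]
    simp
  rw [← h2, h3]

/-- The combinatorial inequality. -/
theorem comb (h0 : g (∅, ∅, ∅) = 0) (hmono : ∀ Y Z, Y ≤ Z → g Y ≤ g Z)
    (hsub : ∀ Y Z, g (Y ⊔ Z) + g (Y ⊓ Z) ≤ g Y + g Z)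
    (hstr : ∀ Y Z, Auth Y → Auth Z → ¬ Auth (Y ⊓ Z) →
      g (Y ⊔ Z) + g (Y ⊓ Z) + 1 ≤ g Y + g Z) :
    (l : ℝ) ^ 2 ≤ ∑ i : Fin l, g ({i}, ∅, ∅) + ∑ j : Fin l, g (∅, {j}, ∅) +
      ∑ t : Fin (l + 1), g (∅, ∅, {t}) := by
  set M : ℝ := (Fintype.card (Equiv.Perm (Fin (l + 1))) : ℝ) with hM
  have hMpos : 0 < M := by
    rw [hM]
    exact_mod_cast Fintype.card_pos
  have h1 : (l : ℝ) ^ 2 * M ≤ ∑ σ : Equiv.Perm (Fin (l + 1)), ∑ i : Fin l, ∑ j : Fin l,
        ((g (univ.erase i, {j}, J ((i + j).val + 1) σ) - g (univ.erase i, {j}, J (i + j).val σ)) -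
         (g (univ.erase i, {j}, J ((i + j).val + 2) σ) -
            g (univ.erase i, {j}, J ((i + j).val + 1) σ))) := by
    rw [sum_comm]
    have h2 : (l : ℝ) ^ 2 * M = ∑ i : Fin l, ∑ j : Fin l, M := by
      simp only [sum_const, card_univ, Fintype.card_fin, nsmul_eq_mul]
      ring
    rw [h2]
    refine sum_le_sum (fun i _ => ?_)
    rw [sum_comm]
    exact sum_le_sum (fun j _ => step_swap hstr i j)
  have h3 := h1.trans (sum_le_sum (fun σ _ => per_sigma h0 hmono hsub σ))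
  rw [sum_add_distrib, sum_const, card_univ, nsmul_eq_mul, ← hM, ← mul_sum] at h3
  have h4 := avg_first (l := l) (fun t => g (∅, ∅, {t}))
  rw [← hM] at h4
  have hS0 : 0 ≤ ∑ σ : Equiv.Perm (Fin (l + 1)), g (∅, ∅, {σ.symm 0}) := by
    refine sum_nonneg (fun σ _ => ?_)
    rw [← h0]
    exact hmono _ _ ⟨le_refl _, le_refl _, empty_subset _⟩
  set S := ∑ σ : Equiv.Perm (Fin (l + 1)), g (∅, ∅, {σ.symm 0}) with hS
  have h5 : (l : ℝ) * S ≤ M * ∑ t, g (∅, ∅, {t}) := by
    rw [← h4]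
    nlinarith
  have h6 : M * (l : ℝ) ^ 2 ≤ M * (∑ i : Fin l, g ({i}, ∅, ∅) + ∑ j : Fin l, g (∅, {j}, ∅) +
      ∑ t : Fin (l + 1), g (∅, ∅, {t})) := by
    rw [mul_add]
    linarith
  exact le_of_mul_le_mul_left h6 hMpos

end Comb

/-! ### Part 2: Shannon entropy on a finite uniform probability space -/

section Ent

variable {Ω : Type} [Fintype Ω]

open Classical in
/-- the size of the class of `ω` -/
noncomputable def cls (r : Setoid Ω) (ω : Ω) : ℝ :=
  ((univ.filter (fun ω' => r ω ω')).card : ℝ)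

/-- the sum over `ω` of the logarithm of the size of the class of `ω` -/
noncomputable def Lg (r : Setoid Ω) : ℝ := ∑ ω, Real.log (cls r ω)

lemma cls_pos (r : Setoid Ω) (ω : Ω) : 0 < cls r ω := by
  classical
  unfold cls
  have : 0 < (univ.filter (fun ω' => r ω ω')).card :=
    card_pos.2 ⟨ω, by simpa using r.refl' ω⟩
  exact_mod_cast this

lemma cls_congr (r : Setoid Ω) {ω ω' : Ω} (h : r ω ω') : cls r ω = cls r ω' := by
  classical
  unfold cls
  congr 2
  ext x
  simp only [mem_filter, mem_univ, true_and]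
  exact ⟨fun hx => r.trans' (r.symm' h) hx, fun hx => r.trans' h hx⟩

lemma Lg_mono {r s : Setoid Ω} (h : ∀ ω ω', r ω ω' → s ω ω') : Lg r ≤ Lg s := by
  classical
  refine sum_le_sum (fun ω _ => Real.log_le_log (cls_pos r ω) ?_)
  unfold cls
  have : (univ.filter (fun ω' => r ω ω')).card ≤ (univ.filter (fun ω' => s ω ω')).card := by
    refine card_le_card (fun x hx => ?_)
    simp only [mem_filter, mem_univ, true_and] at hx ⊢
    exact h _ _ hx
  exact_mod_cast this

lemma Lg_submod {r₁ r₂ r₃ r₄ : Setoid Ω} (h13 : ∀ ω ω', r₁ ω ω' → r₃ ω ω')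
    (h23 : ∀ ω ω', r₂ ω ω' → r₃ ω ω') (h4 : ∀ ω ω', r₄ ω ω' ↔ r₁ ω ω' ∧ r₂ ω ω') :
    Lg r₁ + Lg r₂ ≤ Lg r₃ + Lg r₄ := by
  classical
  have key : ∀ ω, Real.log (cls r₁ ω) + Real.log (cls r₂ ω) -
      (Real.log (cls r₃ ω) + Real.log (cls r₄ ω)) ≤
      cls r₁ ω * cls r₂ ω / (cls r₃ ω * cls r₄ ω) - 1 := by
    intro ω
    have p1 := cls_pos r₁ ω
    have p2 := cls_pos r₂ ω
    have p3 := cls_pos r₃ ω
    have p4 := cls_pos r₄ ω
    rw [← Real.log_mul p1.ne' p2.ne', ← Real.log_mul p3.ne' p4.ne',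
      ← Real.log_div (by positivity) (by positivity)]
    exact Real.log_le_sub_one_of_pos (by positivity)
  have hexp : ∀ ω, cls r₁ ω * cls r₂ ω / (cls r₃ ω * cls r₄ ω) =
      ∑ ω₁, ∑ ω₂, (if r₁ ω ω₁ ∧ r₂ ω ω₂ then 1 / (cls r₃ ω * cls r₄ ω) else 0) := by
    intro ω
    have a1 : cls r₁ ω = ∑ ω₁, (if r₁ ω ω₁ then (1 : ℝ) else 0) := by
      simp [cls, Finset.sum_boole]
    have a2 : cls r₂ ω = ∑ ω₂, (if r₂ ω ω₂ then (1 : ℝ) else 0) := by
      simp [cls, Finset.sum_boole]
    rw [div_eq_mul_one_div]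
    nth_rewrite 1 [a1]
    nth_rewrite 1 [a2]
    rw [sum_mul_sum, sum_mul]
    refine sum_congr rfl (fun ω₁ _ => ?_)
    rw [sum_mul]
    refine sum_congr rfl (fun ω₂ _ => ?_)
    by_cases b1 : r₁ ω ω₁ <;> by_cases b2 : r₂ ω ω₂ <;> simp [b1, b2]
  have hin : ∀ ω₁ ω₂, ∑ ω, (if r₁ ω ω₁ ∧ r₂ ω ω₂ then 1 / (cls r₃ ω * cls r₄ ω) else 0) ≤
      (if r₃ ω₁ ω₂ then 1 / cls r₃ ω₁ else 0) := by
    intro ω₁ ω₂
    by_cases hex : ∃ ω₀, r₁ ω₀ ω₁ ∧ r₂ ω₀ ω₂
    · obtain ⟨ω₀, h01, h02⟩ := hex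
      have e1 : ∀ ω, (r₁ ω ω₁ ∧ r₂ ω ω₂) ↔ r₄ ω₀ ω := by
        intro ω
        rw [h4]
        constructor
        · rintro ⟨u, v⟩
          exact ⟨r₁.trans' h01 (r₁.symm' u), r₂.trans' h02 (r₂.symm' v)⟩
        · rintro ⟨u, v⟩
          exact ⟨r₁.trans' (r₁.symm' u) h01, r₂.trans' (r₂.symm' v) h02⟩
      have e2 : ∀ ω, (if r₁ ω ω₁ ∧ r₂ ω ω₂ then 1 / (cls r₃ ω * cls r₄ ω) else 0) =
          (if r₄ ω₀ ω then 1 / (cls r₃ ω₁ * cls r₄ ω₀) else 0) := by
        intro ω
        by_cases hω : r₄ ω₀ ω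
        · have hh := (e1 ω).2 hω
          rw [if_pos hh, if_pos hω, cls_congr r₃ (h13 _ _ hh.1), cls_congr r₄ hω]
        · rw [if_neg hω, if_neg (fun h => hω ((e1 ω).1 h))]
      rw [sum_congr rfl (fun ω _ => e2 ω), if_pos (r₃.trans' (r₃.symm' (h13 _ _ h01)) (h23 _ _ h02))]
      rw [← sum_filter, sum_const, nsmul_eq_mul]
      have e3 : ((univ.filter (fun ω => r₄ ω₀ ω)).card : ℝ) = cls r₄ ω₀ := rfl
      rw [e3]
      have p3 := cls_pos r₃ ω₁
      have p4 := cls_pos r₄ ω₀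
      apply le_of_eq
      field_simp
    · push Not at hex
      rw [sum_eq_zero]
      · split_ifs
        · exact (one_div_pos.2 (cls_pos _ _)).le
        · exact le_refl _
      · intro ω _
        rw [if_neg]
        rintro ⟨u, v⟩
        exact hex ω u v
  have hsum : ∑ ω, cls r₁ ω * cls r₂ ω / (cls r₃ ω * cls r₄ ω) ≤ ∑ ω : Ω, (1 : ℝ) := by
    rw [sum_congr rfl (fun ω _ => hexp ω), sum_comm]
    refine sum_le_sum (fun ω₁ _ => ?_)
    rw [sum_comm]
    refine (sum_le_sum (fun ω₂ _ => hin ω₁ ω₂)).trans ?_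
    rw [← sum_filter, sum_const, nsmul_eq_mul]
    have e3 : ((univ.filter (fun ω => r₃ ω₁ ω)).card : ℝ) = cls r₃ ω₁ := rfl
    rw [e3, mul_one_div_cancel (cls_pos _ _).ne']
  have htot := sum_le_sum (fun ω (_ : ω ∈ (univ : Finset Ω)) => key ω)
  simp only [sum_sub_distrib, sum_add_distrib] at htot
  unfold Lg
  linarith

/-- entropy is at most the logarithm of the number of values -/
lemma Lg_card {r : Setoid Ω} {m : ℕ} (F : Ω → Fin m) (hF : ∀ ω ω', F ω = F ω' → r ω ω')
    (hr : ∀ ω ω', r ω ω' → F ω = F ω') [Nonempty Ω] :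
    (Fintype.card Ω : ℝ) * Real.log (Fintype.card Ω) - Lg r ≤
      (Fintype.card Ω : ℝ) * Real.log m := by
  classical
  set N : ℝ := (Fintype.card Ω : ℝ) with hN
  have hNpos : 0 < N := by rw [hN]; exact_mod_cast Fintype.card_pos
  have hm : 0 < (m : ℝ) := by
    obtain ⟨ω⟩ := ‹Nonempty Ω›
    have := (F ω).pos
    exact_mod_cast this
  have key : ∀ ω, Real.log N - Real.log (cls r ω) - Real.log m ≤ N / (cls r ω * m) - 1 := by
    intro ω
    have p := cls_pos r ω
    rw [sub_sub, ← Real.log_mul p.ne' hm.ne', ← Real.log_div hNpos.ne' (by positivity)]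
    exact Real.log_le_sub_one_of_pos (by positivity)
  have hcount : ∑ ω, 1 / cls r ω ≤ m := by
    have e1 : ∑ ω, 1 / cls r ω = ∑ v : Fin m, ∑ ω ∈ univ.filter (fun ω => F ω = v), 1 / cls r ω :=
      (sum_fiberwise _ _ _).symm
    have e2 : ∀ v : Fin m, ∑ ω ∈ univ.filter (fun ω => F ω = v), 1 / cls r ω ≤ 1 := by
      intro v
      by_cases hex : ∃ ω₀, F ω₀ = v
      · obtain ⟨ω₀, h0⟩ := hex
        have e3 : ∀ ω ∈ univ.filter (fun ω => F ω = v), 1 / cls r ω = 1 / cls r ω₀ := by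
          intro ω hω
          rw [cls_congr r (hF ω ω₀ ?_)]
          simp only [mem_filter, mem_univ, true_and] at hω
          rw [hω, h0]
        rw [sum_congr rfl e3, sum_const, nsmul_eq_mul]
        have e4 : ((univ.filter (fun ω => F ω = v)).card : ℝ) = cls r ω₀ := by
          unfold cls
          congr 2
          ext x
          simp only [mem_filter, mem_univ, true_and]
          rw [← h0]
          exact ⟨fun h => r.symm' (hF _ _ h), fun h => (hr _ _ h).symm⟩
        rw [e4, mul_one_div_cancel (cls_pos _ _).ne']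
      · push Not at hex
        rw [sum_eq_zero]
        · norm_num
        · intro ω hω
          simp only [mem_filter, mem_univ, true_and] at hω
          exact absurd hω (hex ω)
    rw [e1]
    refine (sum_le_sum (fun v _ => e2 v)).trans ?_
    simp
  have htot := sum_le_sum (fun ω (_ : ω ∈ (univ : Finset Ω)) => key ω)
  simp only [sum_sub_distrib, sum_const, card_univ, nsmul_eq_mul, mul_one] at htot
  have e5 : ∑ ω, N / (cls r ω * m) = (N / m) * ∑ ω, 1 / cls r ω := by
    rw [mul_sum]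
    refine sum_congr rfl (fun ω _ => ?_)
    have p := cls_pos r ω
    field_simp
  have e6 : (N / m) * ∑ ω, 1 / cls r ω ≤ N := by
    calc (N / m) * ∑ ω, 1 / cls r ω ≤ (N / m) * m :=
          mul_le_mul_of_nonneg_left hcount (by positivity)
      _ = N := by field_simp
  rw [← hN] at htot
  unfold Lg
  linarith

end Ent

/-! ### Part 3: from a scheme to a polymatroid -/

section Scheme

variable {n q k : ℕ} {m : Fin n → ℕ}

/-- the parties in `Z` see the same shares -/
def rS (share : Fin q → Fin k → ∀ i : Fin n, Fin (m i)) (Z : Finset (Fin n)) :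
    Setoid (Fin q × Fin k) where
  r ω ω' := ∀ i ∈ Z, share ω.1 ω.2 i = share ω'.1 ω'.2 i
  iseqv := ⟨fun _ _ _ => rfl, fun h i hi => (h i hi).symm,
    fun h h' i hi => (h i hi).trans (h' i hi)⟩

/-- the parties in `Z` see the same shares, and the secret is the same -/
def rT (share : Fin q → Fin k → ∀ i : Fin n, Fin (m i)) (Z : Finset (Fin n)) :
    Setoid (Fin q × Fin k) where
  r ω ω' := ω.1 = ω'.1 ∧ ∀ i ∈ Z, share ω.1 ω.2 i = share ω'.1 ω'.2 i
  iseqv := ⟨fun _ => ⟨rfl, fun _ _ => rfl⟩, fun h => ⟨h.1.symm, fun i hi => (h.2 i hi).symm⟩,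
    fun h h' => ⟨h.1.trans h'.1, fun i hi => (h.2 i hi).trans (h'.2 i hi)⟩⟩

lemma rS_iff (share : Fin q → Fin k → ∀ i : Fin n, Fin (m i)) (Z : Finset (Fin n))
    (ω ω' : Fin q × Fin k) :
    rS share Z ω ω' ↔ ∀ i ∈ Z, share ω.1 ω.2 i = share ω'.1 ω'.2 i := Iff.rfl

lemma rT_iff (share : Fin q → Fin k → ∀ i : Fin n, Fin (m i)) (Z : Finset (Fin n))
    (ω ω' : Fin q × Fin k) :
    rT share Z ω ω' ↔ ω.1 = ω'.1 ∧ ∀ i ∈ Z, share ω.1 ω.2 i = share ω'.1 ω'.2 i := Iff.rfl

lemma Lg_auth (share : Fin q → Fin k → ∀ i : Fin n, Fin (m i)) (Z : Finset (Fin n))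
    (hZ : ∀ (s s' : Fin q) (r r' : Fin k), (∀ i ∈ Z, share s r i = share s' r' i) → s = s') :
    Lg (rT share Z) = Lg (rS share Z) := by
  refine le_antisymm (Lg_mono (fun ω ω' h => h.2)) (Lg_mono (fun ω ω' h => ⟨?_, h⟩))
  exact hZ _ _ _ _ h

lemma Lg_unauth (hq : 0 < q) (share : Fin q → Fin k → ∀ i : Fin n, Fin (m i))
    (Z : Finset (Fin n))
    (hZ : ∀ (s s' : Fin q) (v : ∀ i : Fin n, Fin (m i)),
      (univ.filter (fun r : Fin k => ∀ i ∈ Z, share s r i = v i)).card =
      (univ.filter (fun r : Fin k => ∀ i ∈ Z, share s' r i = v i)).card) :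
    Lg (rS share Z) = Lg (rT share Z) + ((q : ℝ) * k) * Real.log q := by
  classical
  have hcls : ∀ ω, cls (rS share Z) ω = q * cls (rT share Z) ω := by
    rintro ⟨s, r⟩
    have e1 : cls (rT share Z) (s, r) =
        ((univ.filter (fun r' : Fin k => ∀ i ∈ Z, share s r' i = share s r i)).card : ℝ) := by
      unfold cls
      congr 1
      refine card_bij' (fun ω _ => ω.2) (fun r' _ => (s, r')) ?_ ?_ ?_ ?_
      · rintro ⟨s', r'⟩ h
        simp only [mem_filter, mem_univ, true_and, rT_iff] at h ⊢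
        obtain ⟨h1, h2⟩ := h
        subst h1
        exact fun i hi => (h2 i hi).symm
      · intro r' h
        simp only [mem_filter, mem_univ, true_and, rT_iff] at h ⊢
        exact fun i hi => (h i hi).symm
      · rintro ⟨s', r'⟩ h
        simp only [mem_filter, mem_univ, true_and, rT_iff] at h
        rw [h.1]
      · intro r' h
        rfl
    have e2 : cls (rS share Z) (s, r) = ∑ s' : Fin q,
        ((univ.filter (fun r' : Fin k => ∀ i ∈ Z, share s' r' i = share s r i)).card : ℝ) := by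
      unfold cls
      rw [card_filter]
      push_cast
      rw [Fintype.sum_prod_type]
      refine sum_congr rfl (fun s' _ => ?_)
      rw [card_filter]
      push_cast
      refine sum_congr rfl (fun r' _ => ?_)
      have e3 : rS share Z (s, r) (s', r') ↔ ∀ i ∈ Z, share s' r' i = share s r i := by
        rw [rS_iff]
        exact ⟨fun h i hi => (h i hi).symm, fun h i hi => (h i hi).symm⟩
      by_cases h : rS share Z (s, r) (s', r')
      · rw [if_pos h, if_pos (e3.1 h)]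
      · rw [if_neg h, if_neg (fun h' => h (e3.2 h'))]
    rw [e2, e1, sum_congr rfl (fun s' _ => by rw [hZ s' s (share s r)])]
    simp
  have hq' : (0 : ℝ) < q := by exact_mod_cast hq
  unfold Lg
  have h1 : ∀ ω, Real.log (cls (rS share Z) ω) = Real.log (cls (rT share Z) ω) + Real.log q := by
    intro ω
    rw [hcls, Real.log_mul hq'.ne' (cls_pos _ _).ne', add_comm]
  rw [sum_congr rfl (fun ω _ => h1 ω), sum_add_distrib]
  simp

theorem exists_f (hq : 2 ≤ q) (hk : 0 < k) (A : Finset (Finset (Fin n)))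
    (hmono : ∀ B ∈ A, ∀ C : Finset (Fin n), B ⊆ C → C ∈ A)
    (share : Fin q → Fin k → ∀ i : Fin n, Fin (m i))
    (hcorr : ∀ B ∈ A, ∀ (s s' : Fin q) (r r' : Fin k),
      (∀ i ∈ B, share s r i = share s' r' i) → s = s')
    (hpriv : ∀ B : Finset (Fin n), B ∉ A → ∀ (s s' : Fin q) (v : ∀ i : Fin n, Fin (m i)),
      (univ.filter (fun r : Fin k => ∀ i ∈ B, share s r i = v i)).card =
      (univ.filter (fun r : Fin k => ∀ i ∈ B, share s' r i = v i)).card) :
    ∃ f : Finset (Fin n) → ℝ, f ∅ = 0 ∧ (∀ Y Z, Y ⊆ Z → f Y ≤ f Z) ∧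
      (∀ Y Z, f (Y ∪ Z) + f (Y ∩ Z) ≤ f Y + f Z) ∧
      (∀ Y Z, Y ∈ A → Z ∈ A → Y ∩ Z ∉ A → f (Y ∪ Z) + f (Y ∩ Z) + 1 ≤ f Y + f Z) ∧
      ∀ i, f {i} * Real.log q ≤ Real.log (m i) := by
  classical
  set N : ℝ := (q : ℝ) * k with hN
  have hq0 : 0 < q := by omega
  have hqr : (0 : ℝ) < q := by exact_mod_cast hq0
  have hkr : (0 : ℝ) < k := by exact_mod_cast hk
  have hNpos : 0 < N := by positivity
  have hlogq : 0 < Real.log q := Real.log_pos (by exact_mod_cast (by omega : 1 < q))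
  have hden : 0 < N * Real.log q := by positivity
  have hcard : (Fintype.card (Fin q × Fin k) : ℝ) = N := by
    simp [hN]
  have : Nonempty (Fin q × Fin k) := ⟨(⟨0, hq0⟩, ⟨0, hk⟩)⟩
  have hauth : ∀ Z ∈ A, Lg (rT share Z) = Lg (rS share Z) :=
    fun Z hZ => Lg_auth share Z (hcorr Z hZ)
  have hunauth : ∀ Z, Z ∉ A → Lg (rS share Z) = Lg (rT share Z) + N * Real.log q :=
    fun Z hZ => Lg_unauth hq0 share Z (hpriv Z hZ)
  have hS : ∀ Y Z, Lg (rS share Y) + Lg (rS share Z) ≤
      Lg (rS share (Y ∩ Z)) + Lg (rS share (Y ∪ Z)) := by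
    intro Y Z
    refine Lg_submod (fun ω ω' h i hi => h i (mem_of_mem_inter_left hi))
      (fun ω ω' h i hi => h i (mem_of_mem_inter_right hi)) (fun ω ω' => ?_)
    rw [rS_iff, rS_iff, rS_iff]
    constructor
    · exact fun h => ⟨fun i hi => h i (mem_union_left _ hi), fun i hi => h i (mem_union_right _ hi)⟩
    · rintro ⟨h1, h2⟩ i hi
      rcases mem_union.1 hi with h | h
      · exact h1 i h
      · exact h2 i h
  have hT : ∀ Y Z, Lg (rT share Y) + Lg (rT share Z) ≤
      Lg (rT share (Y ∩ Z)) + Lg (rT share (Y ∪ Z)) := by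
    intro Y Z
    refine Lg_submod (fun ω ω' h => ⟨h.1, fun i hi => h.2 i (mem_of_mem_inter_left hi)⟩)
      (fun ω ω' h => ⟨h.1, fun i hi => h.2 i (mem_of_mem_inter_right hi)⟩) (fun ω ω' => ?_)
    rw [rT_iff, rT_iff, rT_iff]
    constructor
    · exact fun h => ⟨⟨h.1, fun i hi => h.2 i (mem_union_left _ hi)⟩,
        ⟨h.1, fun i hi => h.2 i (mem_union_right _ hi)⟩⟩
    · rintro ⟨h1, h2⟩
      refine ⟨h1.1, fun i hi => ?_⟩
      rcases mem_union.1 hi with h | h
      · exact h1.2 i h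
      · exact h2.2 i h
  refine ⟨fun Z => (N * Real.log N - Lg (rS share Z)) / (N * Real.log q), ?_, ?_, ?_, ?_, ?_⟩
  · have : Lg (rS share ∅) = N * Real.log N := by
      have e1 : ∀ ω, cls (rS share ∅) ω = N := by
        intro ω
        unfold cls
        rw [filter_true_of_mem]
        · rw [card_univ]; exact hcard
        · intro ω' _ i hi
          simp at hi
      unfold Lg
      rw [sum_congr rfl (fun ω _ => by rw [e1 ω])]
      rw [sum_const, card_univ, nsmul_eq_mul, hcard]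
    simp [this]
  · intro Y Z hYZ
    have : Lg (rS share Z) ≤ Lg (rS share Y) := Lg_mono (fun ω ω' h i hi => h i (hYZ hi))
    dsimp only
    gcongr
  · intro Y Z
    dsimp only
    rw [← add_div, ← add_div]
    have := hS Y Z
    apply div_le_div_of_nonneg_right _ hden.le
    linarith
  · intro Y Z hY hZ hYZ
    have h1 := hT Y Z
    rw [hauth Y hY, hauth Z hZ, hauth (Y ∪ Z) (hmono Y hY _ subset_union_left)] at h1
    have h2 := hunauth _ hYZ
    dsimp only
    have e : (1 : ℝ) = (N * Real.log q) / (N * Real.log q) := (div_self hden.ne').symm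
    rw [e, ← add_div, ← add_div, ← add_div]
    apply div_le_div_of_nonneg_right _ hden.le
    linarith
  · intro i
    have h1 := Lg_card (r := rS share {i}) (m := m i) (fun ω => share ω.1 ω.2 i)
      (fun ω ω' h j hj => by rw [mem_singleton.1 hj]; exact h)
      (fun ω ω' h => h i (mem_singleton_self i))
    rw [hcard] at h1
    dsimp only
    rw [div_mul_eq_mul_div, div_le_iff₀ hden]
    calc (N * Real.log N - Lg (rS share {i})) * Real.log q
        ≤ (N * Real.log (m i)) * Real.log q := mul_le_mul_of_nonneg_right h1 hlogq.le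
      _ = Real.log (m i) * (N * Real.log q) := by ring

end Scheme

/-! ### Part 4: the access structure -/

section Main

variable {l : ℕ} [NeZero l] {P : Type} [DecidableEq P]

/-- the parties coded by a triple -/
def img (e : Fin l ⊕ Fin l ⊕ Fin (l + 1) → P)
    (Z : Finset (Fin l) × Finset (Fin l) × Finset (Fin (l + 1))) : Finset P :=
  (Z.1.disjSum (Z.2.1.disjSum Z.2.2)).image e

theorem main_ineq (f : Finset P → ℝ) (e : Fin l ⊕ Fin l ⊕ Fin (l + 1) → P)
    (he : Function.Injective e) (Γ : Finset P → Prop)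
    (hΓ : ∀ Z, Γ Z ↔ ∃ i j : Fin l, (∀ k, k ≠ i → e (Sum.inl k) ∈ Z) ∧
      e (Sum.inr (Sum.inl j)) ∈ Z ∧
      (i + j).val + 1 ≤ (univ.filter (fun t : Fin (l + 1) => e (Sum.inr (Sum.inr t)) ∈ Z)).card)
    (h0 : f ∅ = 0) (hmono : ∀ Y Z, Y ⊆ Z → f Y ≤ f Z)
    (hsub : ∀ Y Z, f (Y ∪ Z) + f (Y ∩ Z) ≤ f Y + f Z)
    (hstr : ∀ Y Z, Γ Y → Γ Z → ¬ Γ (Y ∩ Z) → f (Y ∪ Z) + f (Y ∩ Z) + 1 ≤ f Y + f Z) :
    (l : ℝ) ^ 2 ≤ ∑ z, f {e z} := by
  have hmem : ∀ (Z : Finset (Fin l) × Finset (Fin l) × Finset (Fin (l + 1)))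
      (z : Fin l ⊕ Fin l ⊕ Fin (l + 1)),
      e z ∈ img e Z ↔ z ∈ Z.1.disjSum (Z.2.1.disjSum Z.2.2) := by
    intro Z z
    unfold img
    rw [mem_image]
    constructor
    · rintro ⟨z', h, h'⟩
      rw [← he h']
      exact h
    · intro h
      exact ⟨z, h, rfl⟩
  have hsup : ∀ Y Z, img e (Y ⊔ Z) = img e Y ∪ img e Z := by
    intro Y Z
    unfold img
    rw [← image_union]
    congr 1
    ext z
    rcases z with z | z | z <;> simp
  have hinf : ∀ Y Z, img e (Y ⊓ Z) = img e Y ∩ img e Z := by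
    intro Y Z
    unfold img
    rw [← image_inter _ _ he]
    congr 1
    ext z
    rcases z with z | z | z <;> simp
  have hAuth : ∀ Z, Auth Z ↔ Γ (img e Z) := by
    intro Z
    rw [hΓ]
    unfold Auth
    have e1 : (univ.filter (fun t : Fin (l + 1) => e (Sum.inr (Sum.inr t)) ∈ img e Z)) = Z.2.2 := by
      ext t
      simp [hmem]
    rw [e1]
    simp only [hmem]
    simp
  have hc := comb (l := l) (g := fun Z => f (img e Z)) (by simpa [img] using h0)
    (by
      intro Y Z hYZ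
      refine hmono _ _ (image_subset_image ?_)
      obtain ⟨h1, h2, h3⟩ := hYZ
      exact disjSum_mono h1 (disjSum_mono h2 h3))
    (by
      intro Y Z
      rw [hsup, hinf]
      exact hsub _ _)
    (by
      intro Y Z hY hZ hYZ
      rw [hsup, hinf]
      rw [hAuth, hinf] at hYZ
      exact hstr _ _ ((hAuth Y).1 hY) ((hAuth Z).1 hZ) hYZ)
  rw [Fintype.sum_sum_type, Fintype.sum_sum_type, ← add_assoc]
  have e1 : ∀ i : Fin l, img e ({i}, ∅, ∅) = {e (Sum.inl i)} := by
    intro i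
    unfold img
    ext p
    simp [disjSum, eq_comm]
  have e2 : ∀ i : Fin l, img e (∅, {i}, ∅) = {e (Sum.inr (Sum.inl i))} := by
    intro i
    unfold img
    ext p
    simp [disjSum, eq_comm]
  have e3 : ∀ i : Fin (l + 1), img e (∅, ∅, {i}) = {e (Sum.inr (Sum.inr i))} := by
    intro i
    unfold img
    ext p
    simp [disjSum, eq_comm]
  simp only [e1, e2, e3] at hc
  exact hc

end Main

/-- the parties: `x_i`, `a_j`, `b_t` are numbered `i`, `l + j`, `2 l + t` -/
def prt {n l : ℕ} (h : 3 * l + 1 ≤ n) : Fin l ⊕ Fin l ⊕ Fin (l + 1) → Fin n :=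
  Sum.elim (fun i => ⟨i.val, by omega⟩)
    (Sum.elim (fun j => ⟨l + j.val, by omega⟩) (fun t => ⟨2 * l + t.val, by omega⟩))

lemma prt_inj {n l : ℕ} (h : 3 * l + 1 ≤ n) : Function.Injective (prt h) := by
  intro z z' hz
  have hz' := congrArg Fin.val hz
  rcases z with z | z | z <;> rcases z' with z' | z' | z' <;> simp [prt] at hz' <;>
    have h1 := z.isLt <;> have h2 := z'.isLt
  · exact congrArg _ (Fin.ext hz')
  · omega
  · omega
  · omega
  · exact congrArg _ (congrArg _ (Fin.ext hz'))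
  · omega
  · omega
  · omega
  · exact congrArg _ (congrArg _ (Fin.ext hz'))

theorem total_bound (n l : ℕ) [NeZero l] (h : 3 * l + 1 ≤ n) :
    ∃ A : Finset (Finset (Fin n)),
      (∅ ∉ A) ∧
      (∀ B ∈ A, ∀ C : Finset (Fin n), B ⊆ C → C ∈ A) ∧
      ∀ (q k : ℕ) (m : Fin n → ℕ) (share : Fin q → Fin k → ∀ i : Fin n, Fin (m i)),
        2 ≤ q → 0 < k →
        (∀ B ∈ A, ∀ (s s' : Fin q) (r r' : Fin k),
          (∀ i ∈ B, share s r i = share s' r' i) → s = s') →
        (∀ B : Finset (Fin n), B ∉ A → ∀ (s s' : Fin q) (v : ∀ i : Fin n, Fin (m i)),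
          (univ.filter (fun r : Fin k => ∀ i ∈ B, share s r i = v i)).card =
          (univ.filter (fun r : Fin k => ∀ i ∈ B, share s' r i = v i)).card) →
        (l : ℝ) ^ 2 * Real.log q ≤ ∑ i, Real.log (m i) := by
  classical
  set e := prt h with he
  set Γ : Finset (Fin n) → Prop := fun Z => ∃ i j : Fin l, (∀ k, k ≠ i → e (Sum.inl k) ∈ Z) ∧
      e (Sum.inr (Sum.inl j)) ∈ Z ∧
      (i + j).val + 1 ≤ (univ.filter (fun t : Fin (l + 1) => e (Sum.inr (Sum.inr t)) ∈ Z)).card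
    with hΓ
  refine ⟨univ.filter Γ, ?_, ?_, ?_⟩
  · intro h0
    rw [mem_filter] at h0
    obtain ⟨_, i, j, _, h2, _⟩ := h0
    simp at h2
  · intro B hB C hBC
    rw [mem_filter] at hB ⊢
    obtain ⟨_, i, j, h1, h2, h3⟩ := hB
    refine ⟨mem_univ _, i, j, fun k hk => hBC (h1 k hk), hBC h2, h3.trans (card_le_card ?_)⟩
    intro t ht
    simp only [mem_filter, mem_univ, true_and] at ht ⊢
    exact hBC ht
  · intro q k m share hq hk hcorr hpriv
    have hmono : ∀ B ∈ univ.filter Γ, ∀ C : Finset (Fin n), B ⊆ C → C ∈ univ.filter Γ := by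
      intro B hB C hBC
      rw [mem_filter] at hB ⊢
      obtain ⟨_, i, j, h1, h2, h3⟩ := hB
      refine ⟨mem_univ _, i, j, fun k hk => hBC (h1 k hk), hBC h2, h3.trans (card_le_card ?_)⟩
      intro t ht
      simp only [mem_filter, mem_univ, true_and] at ht ⊢
      exact hBC ht
    obtain ⟨f, f0, fm, fs, ft, fl⟩ := exists_f hq hk (univ.filter Γ) hmono share hcorr hpriv
    have hmain := main_ineq f e (prt_inj h) Γ (fun Z => Iff.rfl) f0 fm fs
      (fun Y Z hY hZ hYZ => ft Y Z (by simpa using hY) (by simpa using hZ) (by simpa using hYZ))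
    have hlogq : 0 < Real.log q := Real.log_pos (by exact_mod_cast (by omega : 1 < q))
    have hnn : ∀ i, 0 ≤ f {i} := by
      intro i
      rw [← f0]
      exact fm _ _ (empty_subset _)
    have h1 : ∑ z, f {e z} ≤ ∑ i : Fin n, f {i} := by
      calc ∑ z, f {e z} = ∑ i ∈ univ.image e, f {i} := by
            rw [sum_image (fun z _ z' _ hz => prt_inj h hz)]
        _ ≤ ∑ i : Fin n, f {i} :=
            sum_le_sum_of_subset_of_nonneg (subset_univ _) (fun i _ _ => hnn i)
    calc (l : ℝ) ^ 2 * Real.log q ≤ (∑ i : Fin n, f {i}) * Real.log q :=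
          mul_le_mul_of_nonneg_right (hmain.trans h1) hlogq.le
      _ = ∑ i : Fin n, f {i} * Real.log q := sum_mul _ _ _
      _ ≤ ∑ i, Real.log (m i) := sum_le_sum (fun i _ => fl i)

/-- For every `n ≥ 3` there is an access structure on `n` parties such that every perfect
scheme realizing it, for any secret domain with `q ≥ 2` elements, has total share length at
least `((n - 3) / 3) ^ 2 * log₂ q`, and some party has a share of length at least
`((n - 6) / 9) * log₂ q`. -/
theorem result (n : ℕ) (hn : 3 ≤ n) :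
    ∃ A : Finset (Finset (Fin n)),
      (∅ ∉ A) ∧
      (∀ B ∈ A, ∀ C : Finset (Fin n), B ⊆ C → C ∈ A) ∧
      ∀ (q k : ℕ) (m : Fin n → ℕ) (share : Fin q → Fin k → ∀ i : Fin n, Fin (m i)),
        2 ≤ q → 0 < k →
        (∀ B ∈ A, ∀ (s s' : Fin q) (r r' : Fin k),
          (∀ i ∈ B, share s r i = share s' r' i) → s = s') →
        (∀ B : Finset (Fin n), B ∉ A → ∀ (s s' : Fin q) (v : ∀ i : Fin n, Fin (m i)),
          (Finset.univ.filter (fun r : Fin k => ∀ i ∈ B, share s r i = v i)).card =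
          (Finset.univ.filter (fun r : Fin k => ∀ i ∈ B, share s' r i = v i)).card) →
        (((n : ℝ) - 3) / 3) ^ 2 * Real.logb 2 q ≤ ∑ i, Real.logb 2 (m i) ∧
        ∃ i, (((n : ℝ) - 6) / 9) * Real.logb 2 q ≤ Real.logb 2 (m i) := by
  classical
  have key : ∃ A : Finset (Finset (Fin n)),
      (∅ ∉ A) ∧
      (∀ B ∈ A, ∀ C : Finset (Fin n), B ⊆ C → C ∈ A) ∧
      ∀ (q k : ℕ) (m : Fin n → ℕ) (share : Fin q → Fin k → ∀ i : Fin n, Fin (m i)),
        2 ≤ q → 0 < k →
        (∀ B ∈ A, ∀ (s s' : Fin q) (r r' : Fin k),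
          (∀ i ∈ B, share s r i = share s' r' i) → s = s') →
        (∀ B : Finset (Fin n), B ∉ A → ∀ (s s' : Fin q) (v : ∀ i : Fin n, Fin (m i)),
          (Finset.univ.filter (fun r : Fin k => ∀ i ∈ B, share s r i = v i)).card =
          (Finset.univ.filter (fun r : Fin k => ∀ i ∈ B, share s' r i = v i)).card) →
        (((n : ℝ) - 3) / 3) ^ 2 * Real.log q ≤ ∑ i, Real.log (m i) := by
    rcases Nat.lt_or_ge n 4 with h4 | h4
    · have hn3 : n = 3 := by omega
      subst hn3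
      refine ⟨∅, by simp, by simp, ?_⟩
      intro q k m share hq hk _ _
      norm_num
      refine sum_nonneg (fun i _ => ?_)
      have hq0 : 0 < q := by omega
      have hm : 0 < m i := (share ⟨0, hq0⟩ ⟨0, hk⟩ i).pos
      exact Real.log_nonneg (by exact_mod_cast hm)
    · have : NeZero ((n - 1) / 3) := ⟨by omega⟩
      obtain ⟨A, h1, h2, h3⟩ := total_bound n ((n - 1) / 3) (by omega)
      refine ⟨A, h1, h2, ?_⟩
      intro q k m share hq hk hc hp
      have hlogq : 0 < Real.log q := Real.log_pos (by exact_mod_cast (by omega : 1 < q))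
      refine le_trans (mul_le_mul_of_nonneg_right ?_ hlogq.le) (h3 q k m share hq hk hc hp)
      have hl : (n : ℝ) - 3 ≤ 3 * (((n - 1) / 3 : ℕ) : ℝ) := by
        have : n ≤ 3 * ((n - 1) / 3) + 3 := by omega
        have : (n : ℝ) ≤ 3 * (((n - 1) / 3 : ℕ) : ℝ) + 3 := by exact_mod_cast this
        linarith
      have hn4 : (4 : ℝ) ≤ n := by exact_mod_cast h4
      apply pow_le_pow_left₀ (by linarith)
      linarith
  obtain ⟨A, h1, h2, h3⟩ := key
  refine ⟨A, h1, h2, ?_⟩
  intro q k m share hq hk hc hp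
  have hlog2 : 0 < Real.log 2 := Real.log_pos (by norm_num)
  have hlogq : 0 < Real.log q := Real.log_pos (by exact_mod_cast (by omega : 1 < q))
  have hlogbq : 0 < Real.logb 2 q := div_pos hlogq hlog2
  have hT : (((n : ℝ) - 3) / 3) ^ 2 * Real.logb 2 q ≤ ∑ i, Real.logb 2 (m i) := by
    have := h3 q k m share hq hk hc hp
    unfold Real.logb
    rw [← sum_div, ← mul_div_assoc]
    exact div_le_div_of_nonneg_right this hlog2.le
  refine ⟨hT, ?_⟩
  by_contra hcon
  push Not at hcon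
  have hn0 : (0 : ℝ) < n := by exact_mod_cast (by omega : 0 < n)
  have hne : (univ : Finset (Fin n)).Nonempty := ⟨⟨0, by omega⟩, mem_univ _⟩
  have h4 : ∑ i, Real.logb 2 (m i) < ∑ i : Fin n, (((n : ℝ) - 6) / 9) * Real.logb 2 q :=
    sum_lt_sum_of_nonempty hne (fun i _ => hcon i)
  rw [sum_const, card_univ, Fintype.card_fin, nsmul_eq_mul] at h4
  have h5 : (n : ℝ) * ((((n : ℝ) - 6) / 9) * Real.logb 2 q) ≤
      (((n : ℝ) - 3) / 3) ^ 2 * Real.logb 2 q := by
    rw [← mul_assoc]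
    apply mul_le_mul_of_nonneg_right _ hlogbq.le
    nlinarith
  linarith

end Pool.Agent.Results.MP_d08deb_lc.QuadraticTotalShare
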